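import Mathlib
import Pool.Agent.H1.PmB

set_option autoImplicit false

namespace Pool.Agent.Results.MP_9bce2c_an.FailAll

open scoped MatrixOrder ComplexOrder
open Matrix Pool.Agent.H1.PmB

/-- The weighted power mean `(t X^p + (1-t) Y^p)^(1/p)` (real powers by functional calculus). -/
noncomputable def mu {n : ℕ} (p t : ℝ) (X Y : Matrix (Fin n) (Fin n) ℂ) :
    Matrix (Fin n) (Fin n) ℂ :=
  (t • X ^ p + (1 - t) • Y ^ p) ^ (1 / p)

/-- The Schatten `q`-norm: the `ℓ_q` norm of the vector of singular values. -/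
noncomputable def schatten {n : ℕ} (q : ℝ) (A : Matrix (Fin n) (Fin n) ℂ) : ℝ :=
  (∑ i ∈ Finset.range n, (Matrix.toEuclideanLin A).singularValues i ^ q) ^ (1 / q)

/-- The Schatten `∞`-norm: the largest singular value. -/
noncomputable def sigma1 {n : ℕ} (A : Matrix (Fin n) (Fin n) ℂ) : ℝ :=
  (Matrix.toEuclideanLin A).singularValues 0

/-- Real symmetric `2 × 2` matrix. -/
noncomputable def S (a b d : ℝ) : Matrix (Fin 2) (Fin 2) ℂ := !![(a : ℂ), b; b, d]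

lemma herm (a b d : ℝ) : (S a b d).IsHermitian := by
  ext i j; fin_cases i <;> fin_cases j <;> simp [S]

lemma pd (a b d : ℝ) (ha : 0 < a) (h : b ^ 2 < a * d) : (S a b d).PosDef := by
  refine PosDef.of_dotProduct_mulVec_pos (herm a b d) fun x hx => ?_
  have : x 0 ≠ 0 ∨ x 1 ≠ 0 := by
    by_contra h; push Not at h; apply hx; ext i; fin_cases i <;> simp [h.1, h.2]
  rw [Complex.pos_iff]
  simp [S, dotProduct, mulVec, Fin.sum_univ_succ]
  refine ⟨?_, by ring⟩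
  have e : ∀ z : ℂ, z ≠ 0 → 0 < z.re ^ 2 + z.im ^ 2 := fun z hz => by
    have := Complex.normSq_pos.2 hz; rw [Complex.normSq_apply] at this; nlinarith
  refine pos_of_mul_pos_left (b := a) ?_ ha.le
  by_cases h1 : x 1 = 0
  · have := e _ (this.resolve_right (not_not.2 h1)); simp [h1]; nlinarith [mul_pos (mul_pos ha ha) this]
  · nlinarith [mul_pos (sub_pos.2 h) (e _ h1), sq_nonneg (a * (x 0).re + b * (x 1).re),
      sq_nonneg (a * (x 0).im + b * (x 1).im)]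

lemma aff (a b d u v y α β : ℝ) (h : (S a b d).PosDef) (ht : a + d = u + v)
    (hd : a * d - b ^ 2 = u * v) (h1 : α + β * u = u ^ y) (h2 : α + β * v = v ^ y) :
    S a b d ^ y = S (α + β * a) (β * b) (α + β * d) := by
  rw [CFC.rpow_eq_cfc_real h.posSemidef.nonneg, cfc_congr (g := fun x => α + β * x)]
  · have sa : IsSelfAdjoint (S a b d) := herm a b d
    have e1 := cfc_const_mul_id β (S a b d) sa
    rw [cfc_const_add α (fun x => β * x) (S a b d) (by fun_prop) sa, e1]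
    ext i j; fin_cases i <;> fin_cases j <;> simp [S, Matrix.algebraMap_matrix_apply]
  · intro x hx
    rw [spectrum.mem_iff, isUnit_iff_isUnit_det, isUnit_iff_ne_zero, not_not] at hx
    have := congrArg Complex.re hx
    simp [S, det_fin_two, Matrix.algebraMap_matrix_apply] at this
    have : (x - u) * (x - v) = 0 := by linear_combination this + x * ht - hd
    rcases mul_eq_zero.1 this with h | h <;> rw [sub_eq_zero] at h <;> simp [h, h1, h2]

lemma ex (u v A B : ℝ) (h : u = v → A = B) : ∃ α β : ℝ, α + β * u = A ∧ α + β * v = B := by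
  by_cases e : u = v
  · exact ⟨A, 0, by simp, by simp [h e]⟩
  · have := sub_ne_zero.2 e
    exact ⟨A - (A - B) / (u - v) * u, (A - B) / (u - v), by ring, by field_simp; ring⟩

/-- For every `p < 0` and every real `q ≥ 1` the power mean is not monotonic. -/
lemma neg (p : ℝ) (hp : p < 0) : ∃ X Y : Matrix (Fin 2) (Fin 2) ℂ,
    X.PosDef ∧ Y.PosDef ∧ ∃ u v : ℝ, 0 < v ∧ 2 * v < u ∧ ∀ q : ℝ, 1 ≤ q →
      u ^ q ≤ ∑ i ∈ Finset.range 2, (toEuclideanLin (mu p (1 / 2) X Y - Y)).singularValues i ^ q ∧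
      ∑ i ∈ Finset.range 2, (toEuclideanLin (mu p 1 X Y - Y)).singularValues i ^ q ≤ 2 * v ^ q := by
  have h1 : 1 ≤ (1 / 20 : ℝ) ^ p := Real.one_le_rpow_of_pos_of_le_one_of_nonpos (by norm_num) (by norm_num) hp.le
  obtain ⟨K, hK⟩ : ∃ K : ℝ, K = (1681 * (1 / 20 : ℝ) ^ p - 1600) / 81 := ⟨_, rfl⟩
  have K1 : 1 ≤ K := by rw [hK]; linarith
  obtain ⟨δ, hδ⟩ : ∃ δ : ℝ, δ = K ^ (1 / p) := ⟨_, rfl⟩
  have d0 : 0 < δ := by rw [hδ]; positivity
  have d1 : δ ≤ 1 := by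
    rw [hδ]; exact Real.rpow_le_one_of_one_le_of_nonpos K1 (one_div_neg.2 hp).le
  have dK : δ ^ p = K := by rw [hδ, one_div, Real.rpow_inv_rpow (by linarith) hp.ne]
  have P : ∀ e : ℝ, e ^ 2 = 1 → (S ((1600 + 81 * δ) / 1681) (e * 360 * (1 - δ) / 1681)
      ((81 + 1600 * δ) / 1681)).PosDef := fun e he => pd _ _ _ (by positivity) (by
        rw [div_pow, mul_pow, mul_pow, he]; nlinarith)
  obtain ⟨α, β, a1, a2⟩ := ex 1 δ (1 ^ p) (δ ^ p) (fun h => by rw [h])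
  have Q := fun (e : ℝ) (he : e ^ 2 = 1) => aff _ _ _ 1 δ p α β (P e he) (by ring)
    (by rw [div_pow, mul_pow, mul_pow, he]; ring) a1 a2
  rw [Real.one_rpow] at a1
  refine ⟨_, _, P 1 (by norm_num), P (-1) (by norm_num), 9 / 10, 43 / 100, by norm_num, by norm_num,
    fun q hq => ?_⟩
  have m1 : ∀ X Y : Matrix (Fin 2) (Fin 2) ℂ, X.PosDef → mu p 1 X Y = X := fun X Y hX => by
    rw [mu, sub_self, zero_smul, add_zero, one_smul, CFC.rpow_rpow _ _ _ hp.ne hX.isStrictlyPositive,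
      mul_one_div_cancel hp.ne, CFC.rpow_one _ hX.posSemidef.nonneg]
  obtain ⟨α', β', b1, b2⟩ := ex ((1 / 20) ^ p) ((81 + 1600 * K) / 1681) (((1 / 20) ^ p) ^ (1 / p))
    (((81 + 1600 * K) / 1681) ^ (1 / p)) (fun h => by rw [h])
  have m2 := aff ((1 / 20) ^ p) 0 ((81 + 1600 * K) / 1681) _ _ (1 / p) α' β'
    (pd _ _ _ (by positivity) (by have : 0 < K := by linarith
                                  rw [zero_pow two_ne_zero]; positivity)) rfl (by ring) b1 b2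
  rw [b1, one_div p, Real.rpow_rpow_inv (by norm_num) hp.ne, ← one_div p] at m2
  have hs : ∀ a b d a' b' d' : ℝ, S a b d - S a' b' d' = S (a - a') (b - b') (d - d') := by
    intros; ext i j; fin_cases i <;> fin_cases j <;> simp [S]
  have ha : ∀ a b d b' : ℝ, (1 / 2 : ℝ) • S a b d + (1 - 1 / 2 : ℝ) • S a b' d
      = S a ((b + b') / 2) d := by
    intros; ext i j; fin_cases i <;> fin_cases j <;> simp [S] <;> ring
  simp only [m1 _ _ (P 1 (by norm_num))]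
  rw [mu, Q 1 (by norm_num), Q (-1) (by norm_num), ha,
    show α + β * ((1600 + 81 * δ) / 1681) = (1 / 20) ^ p by linarith,
    show α + β * ((81 + 1600 * δ) / 1681) = (81 + 1600 * K) / 1681 by linarith,
    show (β * (1 * 360 * (1 - δ) / 1681) + β * (-1 * 360 * (1 - δ) / 1681)) / 2 = 0 by ring,
    m2, hs, hs, sub_self, sub_self]
  generalize β' * 0 - -1 * 360 * (1 - δ) / 1681 = b
  generalize α' + β' * ((81 + 1600 * K) / 1681) - (81 + 1600 * δ) / 1681 = d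
  obtain ⟨W, e, w1, w2, eE⟩ := spec _ (herm (1 / 20 - (1600 + 81 * δ) / 1681) b d)
  obtain ⟨V, f, v1, v2, eF⟩ := spec _ (herm 0 (1 * 360 * (1 - δ) / 1681 - -1 * 360 * (1 - δ) / 1681) 0)
  rw [link _ W e (herm _ _ _) w2 eE, link _ V f (herm _ _ _) v2 eF]
  have p1 := pin 1 W e (by simp) (by simp) w1 w2 q hq
  rw [← eE, Fin.sum_univ_two] at p1
  have p2 : (9 / 10 : ℝ) ^ q ≤ ∑ i, |e i| ^ q := by
    refine le_trans (le_add_of_le_of_nonneg (Real.rpow_le_rpow (by norm_num) ?_ (by linarith))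
      (by positivity)) p1
    simp [S]; rw [le_abs]; right; linarith
  have p3 : ∀ i, |f i| ≤ 43 / 100 := by
    intro i
    have s := sqr V f v2
    rw [← eF] at s
    have s2 : (diagonal fun i => ((f i ^ 2 : ℝ) : ℂ)) =
        (((720 * (1 - δ) / 1681) ^ 2 : ℝ) : ℂ) • (1 : Matrix (Fin 2) (Fin 2) ℂ) := by
      rw [← w2, w2, ← v2, ← Matrix.mul_smul, ← Matrix.one_mul V, ← Matrix.smul_mul]
      have : (((720 * (1 - δ) / 1681) ^ 2 : ℝ) : ℂ) • (1 : Matrix (Fin 2) (Fin 2) ℂ) =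
          V * (diagonal fun i => ((f i ^ 2 : ℝ) : ℂ)) * Vᴴ := by
        rw [← s]; ext i j; fin_cases i <;> fin_cases j <;> simp [S] <;> ring
      rw [this]
      simp only [← Matrix.mul_assoc, Matrix.one_mul, v2]
      rw [Matrix.mul_assoc, v2, Matrix.mul_one]
    have := congrArg Complex.re (congrFun (congrFun s2 i) i)
    simp only [diagonal_apply_eq, Matrix.smul_apply, one_apply_eq, smul_eq_mul, mul_one,
      Complex.ofReal_re] at this
    apply abs_le_of_sq_le_sq' _ (by norm_num) |> abs_le.2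
    rw [this]; nlinarith
  have p4 : ∑ i, |f i| ^ q ≤ 2 * (43 / 100 : ℝ) ^ q := by
    rw [Fin.sum_univ_two, two_mul]
    exact add_le_add (Real.rpow_le_rpow (abs_nonneg _) (p3 0) (by linarith))
      (Real.rpow_le_rpow (abs_nonneg _) (p3 1) (by linarith))
  exact ⟨p2, p4⟩

/-- For every `p > 2` and every real `q ≥ 1` the power mean is not monotonic. -/
lemma big (p : ℝ) (hp : 2 < p) : ∃ X Y : Matrix (Fin 2) (Fin 2) ℂ,
    X.PosDef ∧ Y.PosDef ∧ ∃ u v : ℝ, 0 < v ∧ 2 * v < u ∧ ∀ q : ℝ, 1 ≤ q →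
      u ^ q ≤ ∑ i ∈ Finset.range 2, (toEuclideanLin (mu p (1 / 2) X Y - Y)).singularValues i ^ q ∧
      ∑ i ∈ Finset.range 2, (toEuclideanLin (mu p 1 X Y - Y)).singularValues i ^ q ≤ 2 * v ^ q := by
  have hp0 : p ≠ 0 := by linarith
  have hr : 2 / p - 1 < 0 := by rw [sub_neg, div_lt_one (by linarith)]; exact hp
  obtain ⟨δ, hδ⟩ : ∃ δ : ℝ, δ = 7 ^ (2 / p - 1)⁻¹ := ⟨_, rfl⟩
  have d0 : 0 < δ := by rw [hδ]; positivity
  have d1 : δ < 1 := by
    rw [hδ]; exact Real.rpow_lt_one_of_one_lt_of_neg (by norm_num) (inv_lt_zero.2 hr)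
  have d7 : (δ ^ 2) ^ (1 / p) = 7 * δ := by
    have : δ ^ (2 / p - 1) = 7 := by rw [hδ, Real.rpow_inv_rpow (by norm_num) hr.ne]
    rw [← this, ← Real.rpow_add_one d0.ne', ← Real.rpow_natCast, ← Real.rpow_mul d0.le]
    congr 1; push_cast; ring
  have w1 : 0 < 1 - δ ^ 2 := by nlinarith
  obtain ⟨c, c0, hc⟩ : ∃ c : ℝ, 0 ≤ c ∧ c ^ 2 = 1 - δ ^ 2 := ⟨_, Real.sqrt_nonneg _, Real.sq_sqrt w1.le⟩
  obtain ⟨K, dK⟩ : ∃ K : ℝ, δ ^ p = K := ⟨_, rfl⟩
  have K0 : 0 < K := by rw [← dK]; positivity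
  have D : ∀ e : ℝ, e ^ 2 = 1 → (1 - δ ^ 2 + δ * δ ^ 2) * (δ ^ 2 + δ * (1 - δ ^ 2)) -
      (e * c * δ * (1 - δ)) ^ 2 = 1 * δ := fun e he => by
    rw [mul_pow, mul_pow, mul_pow, he, hc]; ring
  have P : ∀ e : ℝ, e ^ 2 = 1 → (S (1 - δ ^ 2 + δ * δ ^ 2) (e * c * δ * (1 - δ))
      (δ ^ 2 + δ * (1 - δ ^ 2))).PosDef := fun e he => pd _ _ _ (by positivity) (by
        linarith [D e he])
  obtain ⟨α, β, a1, a2⟩ := ex 1 δ (1 ^ p) (δ ^ p) (fun h => by rw [h])
  have Q := fun (e : ℝ) (he : e ^ 2 = 1) => aff _ _ _ 1 δ p α β (P e he) (by ring)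
    (D e he) a1 a2
  rw [Real.one_rpow] at a1
  rw [dK] at a2
  refine ⟨_, _, P 1 (by norm_num), P (-1) (by norm_num), 5 * δ, 2 * δ, by positivity, by linarith,
    fun q hq => ?_⟩
  have m1 : ∀ X Y : Matrix (Fin 2) (Fin 2) ℂ, X.PosDef → mu p 1 X Y = X := fun X Y hX => by
    rw [mu, sub_self, zero_smul, add_zero, one_smul, CFC.rpow_rpow _ _ _ hp0 hX.isStrictlyPositive,
      mul_one_div_cancel hp0, CFC.rpow_one _ hX.posSemidef.nonneg]
  obtain ⟨α', β', b1, b2⟩ := ex (1 - δ ^ 2 + K * δ ^ 2) (δ ^ 2 + K * (1 - δ ^ 2))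
    ((1 - δ ^ 2 + K * δ ^ 2) ^ (1 / p)) ((δ ^ 2 + K * (1 - δ ^ 2)) ^ (1 / p)) (fun h => by rw [h])
  have m2 := aff (1 - δ ^ 2 + K * δ ^ 2) 0 (δ ^ 2 + K * (1 - δ ^ 2)) _ _ (1 / p) α' β'
    (pd _ _ _ (by positivity) (by rw [zero_pow two_ne_zero]; positivity)) rfl (by ring) b1 b2
  have b3 : 7 * δ ≤ α' + β' * (δ ^ 2 + K * (1 - δ ^ 2)) := by
    rw [b2, ← d7]
    exact Real.rpow_le_rpow (by positivity) (le_add_of_nonneg_right (by positivity)) (by positivity)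
  have hs : ∀ a b d a' b' d' : ℝ, S a b d - S a' b' d' = S (a - a') (b - b') (d - d') := by
    intros; ext i j; fin_cases i <;> fin_cases j <;> simp [S]
  have ha : ∀ a b d b' : ℝ, (1 / 2 : ℝ) • S a b d + (1 - 1 / 2 : ℝ) • S a b' d
      = S a ((b + b') / 2) d := by
    intros; ext i j; fin_cases i <;> fin_cases j <;> simp [S] <;> ring
  simp only [m1 _ _ (P 1 (by norm_num))]
  rw [mu, Q 1 (by norm_num), Q (-1) (by norm_num), ha,
    show α + β * (1 - δ ^ 2 + δ * δ ^ 2) = 1 - δ ^ 2 + K * δ ^ 2 by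
      linear_combination (1 - δ ^ 2) * a1 + δ ^ 2 * a2,
    show α + β * (δ ^ 2 + δ * (1 - δ ^ 2)) = δ ^ 2 + K * (1 - δ ^ 2) by
      linear_combination δ ^ 2 * a1 + (1 - δ ^ 2) * a2,
    show (β * (1 * c * δ * (1 - δ)) + β * (-1 * c * δ * (1 - δ))) / 2 = 0 by ring,
    m2, hs, hs, sub_self, sub_self]
  have b4 : 5 * δ ≤ α' + β' * (δ ^ 2 + K * (1 - δ ^ 2)) - (δ ^ 2 + δ * (1 - δ ^ 2)) := by
    nlinarith [pow_pos d0 3]
  generalize β' * 0 - -1 * c * δ * (1 - δ) = b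
  generalize α' + β' * (δ ^ 2 + K * (1 - δ ^ 2)) - (δ ^ 2 + δ * (1 - δ ^ 2)) = d at b4 ⊢
  generalize α' + β' * (1 - δ ^ 2 + K * δ ^ 2) - (1 - δ ^ 2 + δ * δ ^ 2) = a
  obtain ⟨g, hg⟩ : ∃ g : ℝ, g = 1 * c * δ * (1 - δ) - -1 * c * δ * (1 - δ) := ⟨_, rfl⟩
  have g2 : g ^ 2 ≤ (2 * δ) ^ 2 := by
    have : g ^ 2 = (2 * δ) ^ 2 * (c ^ 2 * (1 - δ) ^ 2) := by rw [hg]; ring
    rw [this, hc]
    exact mul_le_of_le_one_right (by positivity) (mul_le_one₀ (by nlinarith) (by positivity) (by nlinarith))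
  rw [← hg]
  obtain ⟨W, e, w1, w2, eE⟩ := spec _ (herm a b d)
  obtain ⟨V, f, v1, v2, eF⟩ := spec _ (herm 0 g 0)
  rw [link _ W e (herm _ _ _) w2 eE, link _ V f (herm _ _ _) v2 eF]
  have p1 := pin 1 W e (by simp) (by simp) w1 w2 q hq
  rw [← eE, Fin.sum_univ_two] at p1
  have p2 : (5 * δ) ^ q ≤ ∑ i, |e i| ^ q := by
    refine le_trans (le_add_of_nonneg_of_le (by positivity)
      (Real.rpow_le_rpow (by positivity) ?_ (by linarith))) p1
    simp [S]; rw [le_abs]; left; linarith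
  have p3 : ∀ i, |f i| ≤ 2 * δ := by
    intro i
    have s := sqr V f v2
    rw [← eF] at s
    have s2 : (diagonal fun i => ((f i ^ 2 : ℝ) : ℂ)) =
        ((g ^ 2 : ℝ) : ℂ) • (1 : Matrix (Fin 2) (Fin 2) ℂ) := by
      rw [← w2, w2, ← v2, ← Matrix.mul_smul, ← Matrix.one_mul V, ← Matrix.smul_mul]
      have : ((g ^ 2 : ℝ) : ℂ) • (1 : Matrix (Fin 2) (Fin 2) ℂ) =
          V * (diagonal fun i => ((f i ^ 2 : ℝ) : ℂ)) * Vᴴ := by
        rw [← s]; ext i j; fin_cases i <;> fin_cases j <;> simp [S] <;> ring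
      rw [this]
      simp only [← Matrix.mul_assoc, Matrix.one_mul, v2]
      rw [Matrix.mul_assoc, v2, Matrix.mul_one]
    have := congrArg Complex.re (congrFun (congrFun s2 i) i)
    simp only [diagonal_apply_eq, Matrix.smul_apply, one_apply_eq, smul_eq_mul, mul_one,
      Complex.ofReal_re] at this
    apply abs_le_of_sq_le_sq' _ (by positivity) |> abs_le.2
    rw [this]; exact g2
  have p4 : ∑ i, |f i| ^ q ≤ 2 * (2 * δ) ^ q := by
    rw [Fin.sum_univ_two, two_mul ((2 * δ) ^ q)]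
    exact add_le_add (Real.rpow_le_rpow (abs_nonneg _) (p3 0) (by linarith))
      (Real.rpow_le_rpow (abs_nonneg _) (p3 1) (by linarith))
  exact ⟨p2, p4⟩

/-- For `p < 0` or `p > 2` the power mean is not monotonic for any Schatten `q`-norm,
`1 ≤ q ≤ ∞` (the `∞`-norm is the largest singular value). -/
theorem result (p : ℝ) (hp : p < 0 ∨ 2 < p) :
    ∃ X Y : Matrix (Fin 2) (Fin 2) ℂ, X.PosDef ∧ Y.PosDef ∧
      ¬ MonotoneOn (fun t : ℝ => sigma1 (mu p t X Y - Y)) (Set.Icc 0 1) ∧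
      ∀ q : ℝ, 1 ≤ q → ¬ MonotoneOn (fun t : ℝ => schatten q (mu p t X Y - Y)) (Set.Icc 0 1) := by
  obtain ⟨X, Y, hX, hY, u, v, hv, huv, H⟩ := hp.elim (neg p) (big p)
  refine ⟨X, Y, hX, hY, fun h => ?_, fun q hq h => ?_⟩
  · have key := h (a := 1 / 2) (by norm_num) (b := 1) (by norm_num) (by norm_num)
    obtain ⟨h1, h2⟩ := H 2 one_le_two
    simp only [Finset.sum_range_succ, Finset.sum_range_zero, zero_add, Real.rpow_two] at h1 h2
    simp only [sigma1] at key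
    have a1 := LinearMap.singularValues_antitone (toEuclideanLin (mu p (1 / 2) X Y - Y)) zero_le_one
    have a2 := LinearMap.singularValues_nonneg (toEuclideanLin (mu p (1 / 2) X Y - Y)) 1
    have a3 := pow_le_pow_left₀ a2 a1 2
    have a4 := pow_le_pow_left₀ (a2.trans a1) key 2
    nlinarith [sq_nonneg ((toEuclideanLin (mu p 1 X Y - Y)).singularValues 1)]
  · have key := h (a := 1 / 2) (by norm_num) (b := 1) (by norm_num) (by norm_num)
    obtain ⟨h1, h2⟩ := H q hq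
    have nn : ∀ Z : Matrix (Fin 2) (Fin 2) ℂ,
        0 ≤ ∑ i ∈ Finset.range 2, (toEuclideanLin Z).singularValues i ^ q := fun Z =>
      Finset.sum_nonneg fun i _ => Real.rpow_nonneg (LinearMap.singularValues_nonneg _ _) _
    simp only [schatten] at key
    rw [Real.rpow_le_rpow_iff (nn _) (nn _) (by positivity)] at key
    have p5 : (2 : ℝ) ≤ 2 ^ q := by
      simpa using Real.rpow_le_rpow_of_exponent_le one_le_two hq
    have p6 : (2 * v) ^ q < u ^ q := Real.rpow_lt_rpow (by positivity) huv (by linarith)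
    rw [Real.mul_rpow (by norm_num) hv.le] at p6
    nlinarith [Real.rpow_pos_of_pos hv q]

end Pool.Agent.Results.MP_9bce2c_an.FailAll
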